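import Pool.Agent.L5helper16.LG.Defs4

/-!
# Project LG of helper16, D3: an element which is not hit is in `R`
-/

set_option autoImplicit false

namespace Pool.Agent.L5helper95.LG

open Finset MeasureTheory ProbabilityTheory Filter Topology
open Pool.Agent.L5helper16.LG

/-- D3 -/
theorem d3 : St_D3 := by
  intro w hw θ α β hθ a x u hx hxu hu hH
  unfold Hit at hH
  push Not at hH
  obtain ⟨n, hn, hnp⟩ := hH
  classical
  simp only [SS, mem_filter, mem_Ioc] at hn
  obtain ⟨⟨h1, h2⟩, h3⟩ := hn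
  have hn4 : n ≤ 4 * x := h2.trans hu
  have hxn : x ≤ n := by omega
  refine ⟨n, h1, h2, by omega, fun p hp => ⟨fun hpw => h3 p hp (hpw.trans (hw hn4)), fun hpw hpn => ?_⟩⟩
  refine hnp p ?_
  unfold Q2 prI
  rw [mem_filter, mem_Ioc]
  refine ⟨⟨?_, ?_⟩, hp⟩
  · rw [Nat.floor_lt' hp.ne_zero]
    exact lt_of_le_of_lt (hw hxn) hpw
  · refine Nat.le_floor (hpn.trans ?_)
    refine Real.rpow_le_rpow (Nat.cast_nonneg n) ?_ hθ.le
    exact_mod_cast hn4

end Pool.Agent.L5helper95.LG
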